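import Mathlib

/-!
# Finitely presented Noetherian groups: reduction to just non-(virtually polycyclic) groups
-/

set_option autoImplicit false

open Subgroup

namespace Pool.Agent.Results.MP_7644f1_al.JustNonPolycyclic

/-- `G` has a solvable subgroup of finite index. For Noetherian groups this says that `G` is
virtually polycyclic. -/
def VS (G : Type) [Group G] : Prop := ∃ H : Subgroup G, H.FiniteIndex ∧ Group.IsSolvable H

/-- `G` is a counterexample for Q1: finitely presented, Noetherian, not virtually polycyclic. -/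
def Counterexample (G : Type) [Group G] : Prop :=
  Group.IsFinitelyPresented G ∧ WellFoundedGT (Subgroup G) ∧ ¬ VS G

theorem VS.of_surj {A B : Type} [Group A] [Group B] (f : A →* B) (hf : Function.Surjective f)
    (h : VS A) : VS B := by
  obtain ⟨H, hH, hs⟩ := h
  refine ⟨H.map f, ⟨fun h0 => ?_⟩, ?_⟩
  · have h1 := H.index_map_dvd hf
    rw [h0] at h1
    exact hH.index_ne_zero (zero_dvd_iff.1 h1)
  · exact Group.isSolvable_of_surjective (f.subgroupMap_surjective H)

theorem fng {G : Type} [Group G] (h : WellFoundedGT (Subgroup G)) (N : Subgroup G)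
    [hN : N.Normal] : N.IsFinitelyNormallyGenerated := by
  classical
  have hwf : WellFounded ((· > ·) : Subgroup G → Subgroup G → Prop) := h.wf
  obtain ⟨M, ⟨T, hTN, rfl⟩, hmax⟩ := hwf.has_min
    {M : Subgroup G | ∃ T : Finset G, (T : Set G) ⊆ N ∧ M = closure (T : Set G)}
    ⟨_, ∅, by simp, rfl⟩
  refine ⟨(T : Set G), T.finite_toSet, ?_⟩
  apply le_antisymm (normalClosure_le_normal hTN)
  intro x hx
  have h1 : closure (T : Set G) ≤ closure ((insert x T : Finset G) : Set G) :=
    closure_mono (by rw [Finset.coe_insert]; exact Set.subset_insert _ _)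
  have h2 := hmax (closure ((insert x T : Finset G) : Set G)) ⟨insert x T, by
    rw [Finset.coe_insert]; exact Set.insert_subset hx hTN, rfl⟩
  have h3 : closure (T : Set G) = closure ((insert x T : Finset G) : Set G) := by
    by_contra hne
    exact h2 (lt_of_le_of_ne h1 hne)
  have h4 : x ∈ closure (T : Set G) := by
    rw [h3]
    exact subset_closure (by rw [Finset.coe_insert]; exact Set.mem_insert _ _)
  exact closure_le_normalClosure h4

theorem noeth_quot {G : Type} [Group G] (h : WellFoundedGT (Subgroup G)) (N : Subgroup G)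
    [hN : N.Normal] : WellFoundedGT (Subgroup (G ⧸ N)) := by
  have hm : StrictMono (fun L : Subgroup (G ⧸ N) => L.comap (QuotientGroup.mk' N)) := by
    intro L M hLM
    refine lt_of_le_of_ne (comap_mono hLM.le) fun he => hLM.ne ?_
    exact comap_injective (QuotientGroup.mk'_surjective N) he
  exact hm.wellFoundedGT

/-- Extension of a solvable normal subgroup. -/
theorem VS.of_solvable {Q : Type} [Group Q] (L : Subgroup Q) [hL : L.Normal]
    (hs : Group.IsSolvable L) (h : VS (Q ⧸ L)) : VS Q := by
  obtain ⟨H', hH', hs'⟩ := h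
  refine ⟨H'.comap (QuotientGroup.mk' L), ⟨?_⟩, ?_⟩
  · rw [index_comap_of_surjective _ (QuotientGroup.mk'_surjective L)]
    exact hH'.index_ne_zero
  · set H := H'.comap (QuotientGroup.mk' L)
    let g : H →* H' :=
      { toFun := fun x => ⟨QuotientGroup.mk' L x, x.2⟩
        map_one' := rfl
        map_mul' := fun _ _ => rfl }
    have h1 : Group.IsSolvable (L.subgroupOf H) := by
      let j : L.subgroupOf H →* L :=
        { toFun := fun x => ⟨((x : H) : Q), x.2⟩
          map_one' := rfl
          map_mul' := fun _ _ => rfl }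
      exact Group.isSolvable_of_isSolvable_injective (f := j) (fun a b hab => by
        have h9 := congrArg Subtype.val hab
        exact Subtype.ext (Subtype.ext h9))
    refine Group.isSolvable_of_ker_le_range (L.subgroupOf H).subtype g ?_
    intro x hx
    rw [MonoidHom.mem_ker] at hx
    have h2 : QuotientGroup.mk' L (x : Q) = 1 := congrArg Subtype.val hx
    have h3 : (x : Q) ∈ L := (QuotientGroup.eq_one_iff _).1 h2
    exact ⟨⟨x, h3⟩, rfl⟩

/-- Extension of a finite normal subgroup. -/
theorem VS.of_finite {Q : Type} [Group Q] (L : Subgroup Q) [hL : L.Normal] (hfin : Finite L)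
    (h : VS (Q ⧸ L)) (hno : ∀ A : Subgroup Q, A.Normal → Group.IsSolvable A → A = ⊥) : VS Q := by
  have hfA : Finite (MulAut L) := Finite.of_injective (fun e : MulAut L => (e : L → L))
    (fun a b hab => MulEquiv.ext fun x => congrFun hab x)
  set K := (MulAut.conjNormal : Q →* MulAut L).ker with hK
  have hKfi : K.FiniteIndex := inferInstance
  have hKc : ∀ k ∈ K, ∀ l ∈ L, k * l = l * k := by
    intro k hk l hl
    have h1 := congrArg (fun e : MulAut L => ((e ⟨l, hl⟩ : L) : Q)) (MonoidHom.mem_ker.1 hk)
    have h2 : k * l * k⁻¹ = l := by simpa using h1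
    exact mul_inv_eq_iff_eq_mul.1 h2
  have hA : L ⊓ K = ⊥ := by
    apply hno _ inferInstance
    apply Group.isSolvable_of_comm
    rintro ⟨x, hxL, hxK⟩ ⟨y, hyL, hyK⟩
    exact Subtype.ext (hKc x hxK y hyL)
  obtain ⟨H', hH', hs'⟩ := h
  have hHfi : (H'.comap (QuotientGroup.mk' L)).FiniteIndex := by
    refine ⟨?_⟩
    rw [index_comap_of_surjective _ (QuotientGroup.mk'_surjective L)]
    exact hH'.index_ne_zero
  refine ⟨K ⊓ H'.comap (QuotientGroup.mk' L), inferInstance, ?_⟩
  let g : (K ⊓ H'.comap (QuotientGroup.mk' L) : Subgroup Q) →* H' :=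
    { toFun := fun x => ⟨QuotientGroup.mk' L x, x.2.2⟩
      map_one' := rfl
      map_mul' := fun _ _ => rfl }
  refine Group.isSolvable_of_isSolvable_injective (f := g) ?_
  rw [← MonoidHom.ker_eq_bot_iff, eq_bot_iff]
  intro x hx
  rw [MonoidHom.mem_ker] at hx
  have h2 : QuotientGroup.mk' L (x : Q) = 1 := congrArg Subtype.val hx
  have h3 : (x : Q) ∈ L := (QuotientGroup.eq_one_iff _).1 h2
  have h4 : (x : Q) ∈ L ⊓ K := ⟨h3, x.2.1⟩
  rw [hA, mem_bot] at h4
  exact mem_bot.2 (Subtype.ext h4)

/-- Every counterexample has a quotient that is a counterexample all of whose proper quotients are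
virtually polycyclic, without nontrivial solvable or finite normal subgroups. -/
theorem result (G : Type) [Group G] (h : Counterexample G) :
    ∃ (N : Subgroup G) (_ : N.Normal), Counterexample (G ⧸ N) ∧
      (∀ (L : Subgroup (G ⧸ N)) [L.Normal], L ≠ ⊥ → VS ((G ⧸ N) ⧸ L)) ∧
      ∀ L : Subgroup (G ⧸ N), L.Normal → L ≠ ⊥ → ¬ Group.IsSolvable L ∧ Infinite L := by
  obtain ⟨hfp, hw, hns⟩ := h
  have hwf : WellFounded ((· > ·) : Subgroup G → Subgroup G → Prop) := hw.wf
  obtain ⟨N, ⟨hN, hNs⟩, hmax⟩ := hwf.has_min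
    {N : Subgroup G | ∃ _ : N.Normal, ¬ VS (G ⧸ N)}
    ⟨⊥, normal_bot, fun hvs => hns (hvs.of_surj (QuotientGroup.quotientBot (G := G)).toMonoidHom
      (QuotientGroup.quotientBot (G := G)).surjective)⟩
  have hprop : ∀ (L : Subgroup (G ⧸ N)) [L.Normal], L ≠ ⊥ → VS ((G ⧸ N) ⧸ L) := by
    intro L hL hne
    have hLn : (L.comap (QuotientGroup.mk' N)).Normal := hL.comap _
    have hle : N ≤ L.comap (QuotientGroup.mk' N) := by
      intro x hx
      rw [mem_comap]
      have : QuotientGroup.mk' N x = 1 := (QuotientGroup.eq_one_iff x).2 hx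
      rw [this]; exact one_mem _
    have hlt : N < L.comap (QuotientGroup.mk' N) := by
      refine lt_of_le_of_ne hle fun he => hne ?_
      rw [← map_comap_eq_self_of_surjective (QuotientGroup.mk'_surjective N) L, ← he,
        Subgroup.map_eq_bot_iff, QuotientGroup.ker_mk']
    have h1 : VS (G ⧸ L.comap (QuotientGroup.mk' N)) := by
      by_contra hcon
      exact hmax _ ⟨hLn, hcon⟩ hlt
    let f : G →* (G ⧸ N) ⧸ L := (QuotientGroup.mk' L).comp (QuotientGroup.mk' N)
    have hf : Function.Surjective f :=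
      (QuotientGroup.mk'_surjective L).comp (QuotientGroup.mk'_surjective N)
    have hker : ∀ x ∈ L.comap (QuotientGroup.mk' N), f x = 1 := by
      intro x hx
      exact (QuotientGroup.eq_one_iff _).2 hx
    refine h1.of_surj (QuotientGroup.lift _ f hker) ?_
    intro q
    obtain ⟨x, rfl⟩ := hf q
    exact ⟨QuotientGroup.mk x, rfl⟩
  have hsolv : ∀ A : Subgroup (G ⧸ N), A.Normal → Group.IsSolvable A → A = ⊥ := by
    intro A hA hs
    by_contra hne
    exact hNs (VS.of_solvable A hs (hprop A hne))
  refine ⟨N, hN, ⟨Group.IsFinitelyPresented.quotient N (fng hw N), noeth_quot hw N, hNs⟩, hprop,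
    fun L hL hne => ⟨fun hs => hne (hsolv L hL hs), ?_⟩⟩
  rw [← not_finite_iff_infinite]
  intro hfin
  exact hNs (VS.of_finite L hfin (hprop L hne) hsolv)

end Pool.Agent.Results.MP_7644f1_al.JustNonPolycyclic
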